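import Pool.Agent.X64.NO1.Poly

/-!
# Cells given by half-planes, and a certificate that cells cover a convex region
-/

namespace Pool.Agent.X64.NO1

open Pool.Agent.X64.Hex

/-- The open cell to the left of all directed lines of the list. -/
def Ko (l : List (IP × IP)) : Set Plane := {x | ∀ s ∈ l, 0 < ori (cc s.1) (cc s.2) x}

/-- The closed cell to the left of all directed lines of the list. -/
def Kc (l : List (IP × IP)) : Set Plane := {x | ∀ s ∈ l, 0 ≤ ori (cc s.1) (cc s.2) x}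

theorem isOpen_Ko (l : List (IP × IP)) : IsOpen (Ko l) := isOpen_all _

theorem isClosed_Kc (l : List (IP × IP)) : IsClosed (Kc l) := isClosed_all _

theorem Ko_sub_Kc (l : List (IP × IP)) : Ko l ⊆ Kc l := fun _ h s hs => (h s hs).le

/-- Each line of the list contains the side `s.1 s.2` of the cell. -/
def frB (l : List (IP × IP)) : Bool :=
  l.all fun s => decide (s.1 ≠ s.2) &&
    (l.any fun t => decide (0 < oi t.1 t.2 s.1) && decide (oi t.1 t.2 s.2 ≤ 0)) &&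
    (l.any fun t => decide (oi t.1 t.2 s.1 ≤ 0) && decide (0 < oi t.1 t.2 s.2))

theorem frB_spec {l : List (IP × IP)} (h : frB l = true) {s : IP × IP} (hs : s ∈ l) :
    s.1 ≠ s.2 ∧ (∃ t ∈ l, 0 < oi t.1 t.2 s.1 ∧ oi t.1 t.2 s.2 ≤ 0) ∧
      ∃ t ∈ l, oi t.1 t.2 s.1 ≤ 0 ∧ 0 < oi t.1 t.2 s.2 := by
  unfold frB at h
  rw [List.all_eq_true] at h
  have h1 := h s hs
  simp only [Bool.and_eq_true, decide_eq_true_eq, List.any_eq_true] at h1
  exact ⟨h1.1.1, h1.1.2, h1.2⟩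

theorem fr_line {l : List (IP × IP)} (h : frB l = true) {s : IP × IP} (hs : s ∈ l) {x : Plane}
    (hx : x ∈ Kc l) (h0 : ori (cc s.1) (cc s.2) x = 0) : x ∈ segment ℝ (cc s.1) (cc s.2) := by
  obtain ⟨hne, ⟨t, ht, ht1, ht2⟩, t', ht', ht1', ht2'⟩ := frB_spec h hs
  have hne' : cc s.1 ≠ cc s.2 := fun e => hne (cc_inj e)
  obtain ⟨r, hr1, hr2⟩ := on_line hne' h0
  have e1 := hx t ht
  have e2 := hx t' ht'
  rw [ori_seg hr1 hr2, ori_cc, ori_cc] at e1 e2
  have a1 : (0 : ℝ) < (oi t.1 t.2 s.1 : ℝ) := by exact_mod_cast ht1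
  have a2 : (oi t.1 t.2 s.2 : ℝ) ≤ 0 := by exact_mod_cast ht2
  have a3 : (oi t'.1 t'.2 s.1 : ℝ) ≤ 0 := by exact_mod_cast ht1'
  have a4 : (0 : ℝ) < (oi t'.1 t'.2 s.2 : ℝ) := by exact_mod_cast ht2'
  refine mem_seg.2 ⟨r, ?_, ?_, hr1, hr2⟩
  · by_contra hr
    rw [not_le] at hr
    have b1 := mul_pos (neg_pos.2 hr) a4
    have b2 := mul_nonneg (by linarith : (0 : ℝ) ≤ 1 - r) (neg_nonneg.2 a3)
    linarith
  · by_contra hr
    rw [not_le] at hr
    have b1 := mul_pos (by linarith : (0 : ℝ) < r - 1) a1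
    have b2 := mul_nonneg (by linarith : (0 : ℝ) ≤ r) (neg_nonneg.2 a2)
    linarith

theorem fr_spec {l : List (IP × IP)} (h : frB l = true) {x : Plane} (hx : x ∈ Kc l)
    (hn : x ∉ Ko l) : ∃ s ∈ l, x ∈ segment ℝ (cc s.1) (cc s.2) := by
  unfold Ko at hn
  simp only [Set.mem_ofPred_eq, not_forall] at hn
  obtain ⟨s, hs, h3⟩ := hn
  exact ⟨s, hs, fr_line h hs hx (le_antisymm (not_lt.1 h3) (hx s hs))⟩

/-- The list without the line `s`. -/
def wo (l : List (IP × IP)) (s : IP × IP) : List (IP × IP) := l.filter fun t => decide (t ≠ s)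

theorem mem_wo {l : List (IP × IP)} {s t : IP × IP} : t ∈ wo l s ↔ t ∈ l ∧ t ≠ s := by
  unfold wo
  rw [List.mem_filter, decide_eq_true_eq]

theorem oi_self1 (p q : IP) : oi p q p = 0 := by unfold oi; ring

theorem oi_self2 (p q : IP) : oi p q q = 0 := by unfold oi; ring

theorem line_open {l : List (IP × IP)} (h : frB l = true) {s : IP × IP} (hs : s ∈ l) {x : Plane}
    (hx : x ∈ Ko (wo l s)) (h0 : ori (cc s.1) (cc s.2) x = 0) :
    x ∈ openSegment ℝ (cc s.1) (cc s.2) := by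
  obtain ⟨hne, ⟨t, ht, ht1, ht2⟩, t', ht', ht1', ht2'⟩ := frB_spec h hs
  have hne' : cc s.1 ≠ cc s.2 := fun e => hne (cc_inj e)
  obtain ⟨r, hr1, hr2⟩ := on_line hne' h0
  have n1 : t ≠ s := by
    rintro rfl
    rw [oi_self1] at ht1
    exact lt_irrefl _ ht1
  have n2 : t' ≠ s := by
    rintro rfl
    rw [oi_self2] at ht2'
    exact lt_irrefl _ ht2'
  have e1 := hx t (mem_wo.2 ⟨ht, n1⟩)
  have e2 := hx t' (mem_wo.2 ⟨ht', n2⟩)
  rw [ori_seg hr1 hr2, ori_cc, ori_cc] at e1 e2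
  have a1 : (0 : ℝ) < (oi t.1 t.2 s.1 : ℝ) := by exact_mod_cast ht1
  have a2 : (oi t.1 t.2 s.2 : ℝ) ≤ 0 := by exact_mod_cast ht2
  have a3 : (oi t'.1 t'.2 s.1 : ℝ) ≤ 0 := by exact_mod_cast ht1'
  have a4 : (0 : ℝ) < (oi t'.1 t'.2 s.2 : ℝ) := by exact_mod_cast ht2'
  refine mem_open_seg r ?_ ?_ hr1 hr2
  · by_contra hr
    rw [not_lt] at hr
    have b1 := mul_nonneg (neg_nonneg.2 hr) a4.le
    have b2 := mul_nonneg (by linarith : (0 : ℝ) ≤ 1 - r) (neg_nonneg.2 a3)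
    linarith
  · by_contra hr
    rw [not_lt] at hr
    have b1 := mul_nonneg (by linarith : (0 : ℝ) ≤ r - 1) a1.le
    have b2 := mul_nonneg (by linarith : (0 : ℝ) ≤ r) (neg_nonneg.2 a2)
    linarith

/-- The open segment `p q` is inside the open cell. -/
def inB (l : List (IP × IP)) (p q : IP) : Bool :=
  l.all fun s => decide (0 ≤ oi s.1 s.2 p) && decide (0 ≤ oi s.1 s.2 q) &&
    (decide (0 < oi s.1 s.2 p) || decide (0 < oi s.1 s.2 q))

theorem inB_spec {l : List (IP × IP)} {p q : IP} (h : inB l p q = true) {x : Plane}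
    (hx : x ∈ openSegment ℝ (cc p) (cc q)) : x ∈ Ko l := by
  unfold inB at h
  rw [List.all_eq_true] at h
  intro s hs
  have h1 := h s hs
  simp only [Bool.or_eq_true, Bool.and_eq_true, decide_eq_true_eq] at h1
  obtain ⟨a, b, ha, hb, hab, rfl⟩ := hx
  rw [ori_comb _ _ _ _ _ _ hab, ori_cc, ori_cc]
  obtain ⟨⟨h2, h3⟩, h4⟩ := h1
  have h2' : (0 : ℝ) ≤ (oi s.1 s.2 p : ℝ) := by exact_mod_cast h2
  have h3' : (0 : ℝ) ≤ (oi s.1 s.2 q : ℝ) := by exact_mod_cast h3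
  rcases h4 with h4 | h4
  · have h4' : (0 : ℝ) < (oi s.1 s.2 p : ℝ) := by exact_mod_cast h4
    have := mul_pos ha h4'
    have := mul_nonneg hb.le h3'
    linarith
  · have h4' : (0 : ℝ) < (oi s.1 s.2 q : ℝ) := by exact_mod_cast h4
    have := mul_pos hb h4'
    have := mul_nonneg ha.le h2'
    linarith

/-! ### Covering certificates -/

/-- Coefficients of the affine function `ori s.1 s.2`. -/
def aff (s : IP × IP) : ℤ × ℤ × ℤ :=
  (-(s.2.2 - s.1.2), s.2.1 - s.1.1, -(s.2.1 - s.1.1) * s.1.2 + (s.2.2 - s.1.2) * s.1.1)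

def ev (c : ℤ × ℤ × ℤ) (x : Plane) : ℝ := c.1 * x.1 + c.2.1 * x.2 + c.2.2

theorem ev_aff (s : IP × IP) (x : Plane) : ev (aff s) x = ori (cc s.1) (cc s.2) x := by
  rw [ori_eq]
  unfold ev aff cc
  push_cast
  ring

def neg3 (c : ℤ × ℤ × ℤ) : ℤ × ℤ × ℤ := (-c.1, -c.2.1, -c.2.2)

theorem ev_neg3 (c : ℤ × ℤ × ℤ) (x : Plane) : ev (neg3 c) x = -ev c x := by
  unfold ev neg3
  push_cast
  ring

/-- A binary space partition. -/
inductive BT where
  | leaf (i : ℕ)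
  | node (s : IP × IP) (l r : BT)

/-- The inequality `g ≥ 0` follows from two of the inequalities `c ≥ 0`. -/
def impB (cs : List (ℤ × ℤ × ℤ)) (g : ℤ × ℤ × ℤ) : Bool :=
  cs.any fun c1 => cs.any fun c2 =>
    decide (0 < c1.1 * c2.2.1 - c2.1 * c1.2.1) && decide (0 ≤ g.1 * c2.2.1 - c2.1 * g.2.1) &&
    decide (0 ≤ c1.1 * g.2.1 - g.1 * c1.2.1) &&
    decide (0 ≤ (c1.1 * c2.2.1 - c2.1 * c1.2.1) * g.2.2 -
      (g.1 * c2.2.1 - c2.1 * g.2.1) * c1.2.2 - (c1.1 * g.2.1 - g.1 * c1.2.1) * c2.2.2)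

theorem impB_spec {cs : List (ℤ × ℤ × ℤ)} {g : ℤ × ℤ × ℤ} (h : impB cs g = true) {x : Plane}
    (hx : ∀ c ∈ cs, 0 ≤ ev c x) : 0 ≤ ev g x := by
  unfold impB at h
  simp only [Bool.and_eq_true, decide_eq_true_eq, List.any_eq_true] at h
  obtain ⟨c1, hc1, c2, hc2, ⟨⟨h1, h2⟩, h3⟩, h4⟩ := h
  have e1 := hx c1 hc1
  have e2 := hx c2 hc2
  unfold ev at *
  obtain ⟨a1, b1, d1⟩ := c1
  obtain ⟨a2, b2, d2⟩ := c2
  obtain ⟨a, b, d⟩ := g
  simp only at *
  have h1' : (0 : ℝ) < (a1 : ℝ) * b2 - a2 * b1 := by exact_mod_cast h1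
  have h2' : (0 : ℝ) ≤ (a : ℝ) * b2 - a2 * b := by exact_mod_cast h2
  have h3' : (0 : ℝ) ≤ (a1 : ℝ) * b - a * b1 := by exact_mod_cast h3
  have h4' : (0 : ℝ) ≤ ((a1 : ℝ) * b2 - a2 * b1) * d - ((a : ℝ) * b2 - a2 * b) * d1 -
    ((a1 : ℝ) * b - a * b1) * d2 := by exact_mod_cast h4
  have k1 := mul_nonneg h2' e1
  have k2 := mul_nonneg h3' e2
  have k3 : 0 ≤ ((a1 : ℝ) * b2 - a2 * b1) * ((a : ℝ) * x.1 + b * x.2 + d) := by
    have : ((a1 : ℝ) * b2 - a2 * b1) * ((a : ℝ) * x.1 + b * x.2 + d) =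
      ((a : ℝ) * b2 - a2 * b) * ((a1 : ℝ) * x.1 + b1 * x.2 + d1) +
      ((a1 : ℝ) * b - a * b1) * ((a2 : ℝ) * x.1 + b2 * x.2 + d2) +
      (((a1 : ℝ) * b2 - a2 * b1) * d - ((a : ℝ) * b2 - a2 * b) * d1 -
      ((a1 : ℝ) * b - a * b1) * d2) := by ring
    rw [this]
    linarith
  exact nonneg_of_mul_nonneg_right k3 h1'

/-- The cells of the list `R` cover the region given by the inequalities `cs`. -/
def cov (R : List (List (IP × IP))) : BT → List (ℤ × ℤ × ℤ) → Bool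
  | .leaf i, cs => match R[i]? with
    | some l => l.all fun s => impB cs (aff s)
    | none => false
  | .node s l r, cs => cov R l (aff s :: cs) && cov R r (neg3 (aff s) :: cs)

theorem cov_spec {R : List (List (IP × IP))} {x : Plane} : ∀ (t : BT) (cs : List (ℤ × ℤ × ℤ)),
    cov R t cs = true → (∀ c ∈ cs, 0 ≤ ev c x) → ∃ l ∈ R, x ∈ Kc l := by
  intro t
  induction t with
  | leaf i =>
    intro cs h hx
    unfold cov at h
    split at h
    · rename_i l hl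
      refine ⟨l, List.mem_of_getElem? hl, fun s hs => ?_⟩
      rw [List.all_eq_true] at h
      rw [← ev_aff]
      exact impB_spec (h s hs) hx
    · exact Bool.noConfusion h
  | node s l r ihl ihr =>
    intro cs h hx
    unfold cov at h
    rw [Bool.and_eq_true] at h
    rcases le_total 0 (ev (aff s) x) with h0 | h0
    · refine ihl _ h.1 fun c hc => ?_
      rcases List.mem_cons.1 hc with rfl | hc
      · exact h0
      · exact hx c hc
    · refine ihr _ h.2 fun c hc => ?_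
      rcases List.mem_cons.1 hc with rfl | hc
      · rw [ev_neg3]
        linarith
      · exact hx c hc

/-- A connected set that meets an open set `M` and does not leave it through its frontier. -/
theorem stay {A M : Set Plane} (hA : IsPreconnected A) (hM : IsOpen M) (hne : (A ∩ M).Nonempty)
    (hcl : closure M ∩ A ⊆ M) : A ⊆ M := hA.subset_of_closure_inter_subset hM hne hcl

end Pool.Agent.X64.NO1
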