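import Pool.Agent.X64.Hex.Geom

/-!
# Convex polygons with integer vertices: frontiers, connectedness, disjointness from segments
-/

namespace Pool.Agent.X64.NO1

open Pool.Agent.X64.Hex

/-- The sides of the closed polygon with the given vertices. -/
def sides (L : List IP) : List (IP × IP) := L.zip (L.rotate 1)

/-- The open polygon to the left of all sides. -/
def Fo (L : List IP) : Set Plane := {x | ∀ s ∈ sides L, 0 < ori (cc s.1) (cc s.2) x}

/-- The closed polygon to the left of all sides. -/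
def Fc (L : List IP) : Set Plane := {x | ∀ s ∈ sides L, 0 ≤ ori (cc s.1) (cc s.2) x}

theorem Fo_sub_Fc (L : List IP) : Fo L ⊆ Fc L := fun _ h s hs => (h s hs).le

theorem isOpen_all (l : List (IP × IP)) :
    IsOpen {x : Plane | ∀ s ∈ l, 0 < ori (cc s.1) (cc s.2) x} := by
  induction l with
  | nil => simp
  | cons a l ih =>
    have : {x : Plane | ∀ s ∈ a :: l, 0 < ori (cc s.1) (cc s.2) x} =
        {x : Plane | 0 < ori (cc a.1) (cc a.2) x} ∩ {x | ∀ s ∈ l, 0 < ori (cc s.1) (cc s.2) x} := by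
      ext x
      simp
    rw [this]
    exact (isOpen_lt continuous_const (continuous_ori _ _)).inter ih

theorem isClosed_all (l : List (IP × IP)) :
    IsClosed {x : Plane | ∀ s ∈ l, 0 ≤ ori (cc s.1) (cc s.2) x} := by
  induction l with
  | nil => simp
  | cons a l ih =>
    have : {x : Plane | ∀ s ∈ a :: l, 0 ≤ ori (cc s.1) (cc s.2) x} =
        {x : Plane | 0 ≤ ori (cc a.1) (cc a.2) x} ∩ {x | ∀ s ∈ l, 0 ≤ ori (cc s.1) (cc s.2) x} := by
      ext x
      simp
    rw [this]
    exact (isClosed_le continuous_const (continuous_ori _ _)).inter ih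

theorem isOpen_Fo (L : List IP) : IsOpen (Fo L) := isOpen_all _

theorem isClosed_Fc (L : List IP) : IsClosed (Fc L) := isClosed_all _

theorem ori_comb (p q x y : Plane) (a b : ℝ) (h : a + b = 1) :
    ori p q (a • x + b • y) = a * ori p q x + b * ori p q y := by
  have hb : b = 1 - a := by linarith
  subst hb
  rw [ori_eq, ori_eq, ori_eq]
  simp only [Prod.fst_add, Prod.snd_add, Prod.smul_fst, Prod.smul_snd, smul_eq_mul]
  ring

theorem convex_half (p q : Plane) : Convex ℝ {x : Plane | ori p q x < 0} := by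
  intro x hx y hy a b ha hb hab
  simp only [Set.mem_ofPred_eq] at hx hy ⊢
  rw [ori_comb _ _ _ _ _ _ hab]
  rcases eq_or_lt_of_le ha with h | h
  · have : b = 1 := by linarith
    rw [← h, this]
    linarith
  · nlinarith [mul_nonneg hb (neg_nonneg.2 hy.le), mul_pos h (neg_pos.2 hx)]

theorem convex_Fo (L : List IP) : Convex ℝ (Fo L) := by
  intro x hx y hy a b ha hb hab s hs
  rw [ori_comb _ _ _ _ _ _ hab]
  have h1 := hx s hs
  have h2 := hy s hs
  rcases eq_or_lt_of_le ha with h | h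
  · have : b = 1 := by linarith
    rw [← h, this]
    linarith
  · have := mul_pos h h1
    have := mul_nonneg hb h2.le
    linarith

theorem convex_Fc (L : List IP) : Convex ℝ (Fc L) := by
  intro x hx y hy a b ha hb hab s hs
  rw [ori_comb _ _ _ _ _ _ hab]
  have := mul_nonneg ha (hx s hs)
  have := mul_nonneg hb (hy s hs)
  linarith

/-- The closed polygon is the closure of the open one. -/
theorem closure_Fo {L : List IP} {c : Plane} (hc : c ∈ Fo L) : closure (Fo L) = Fc L := by
  apply Set.Subset.antisymm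
  · exact closure_minimal (Fo_sub_Fc L) (isClosed_Fc L)
  · intro x hx
    have h1 : openSegment ℝ c x ⊆ Fo L := by
      intro y hy s hs
      obtain ⟨a, b, ha, hb, hab, rfl⟩ := hy
      rw [ori_comb _ _ _ _ _ _ hab]
      have := mul_pos ha (hc s hs)
      have := mul_nonneg hb.le (hx s hs)
      linarith
    have h2 : x ∈ closure (openSegment ℝ c x) := by
      rw [closure_openSegment]
      exact right_mem_segment ℝ c x
    exact closure_mono h1 h2

theorem frontier_Fo {L : List IP} {c : Plane} (hc : c ∈ Fo L) : frontier (Fo L) = Fc L \ Fo L := by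
  rw [(isOpen_Fo L).frontier_eq, closure_Fo hc]

theorem interior_Fc {L : List IP} {c : Plane} (hc : c ∈ Fo L) : interior (Fc L) = Fo L := by
  rw [← closure_Fo hc, (convex_Fo L).interior_closure_eq_interior_of_nonempty_interior,
    (isOpen_Fo L).interior_eq]
  rw [(isOpen_Fo L).interior_eq]
  exact ⟨c, hc⟩

theorem frontier_compl_Fc {L : List IP} {c : Plane} (hc : c ∈ Fo L) :
    frontier (Fc L)ᶜ = Fc L \ Fo L := by
  rw [frontier_compl, (isClosed_Fc L).frontier_eq, interior_Fc hc]

/-- Convexity test. -/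
def convB (L : List IP) : Bool :=
  (sides L).all fun s => (L.all fun v => decide (0 ≤ oi s.1 s.2 v)) && decide (s.1 ≠ s.2) &&
    decide (s.1 ∈ L) && decide (s.2 ∈ L) &&
    ((sides L).any fun t => decide (t.2 = s.1) && decide (0 < oi t.1 t.2 s.2)) &&
    ((sides L).any fun t => decide (t.1 = s.2) && decide (0 < oi t.1 t.2 s.1))

theorem on_line {p q x : Plane} (hpq : p ≠ q) (h : ori p q x = 0) :
    ∃ t : ℝ, x.1 = p.1 + t * (q.1 - p.1) ∧ x.2 = p.2 + t * (q.2 - p.2) := by
  rw [ori_eq] at h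
  by_cases h1 : q.1 - p.1 = 0
  · have h2 : q.2 - p.2 ≠ 0 := by
      intro h2
      exact hpq (Prod.ext (by linarith) (by linarith))
    refine ⟨(x.2 - p.2) / (q.2 - p.2), ?_, ?_⟩
    · rw [h1] at h ⊢
      have : (q.2 - p.2) * (x.1 - p.1) = 0 := by linarith
      have := (mul_eq_zero.1 this).resolve_left h2
      linarith
    · field_simp
      ring
  · refine ⟨(x.1 - p.1) / (q.1 - p.1), ?_, ?_⟩
    · field_simp
      ring
    · field_simp
      linarith

theorem sides_eq {L : List IP} (h : convB L = true) (x : Plane) :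
    x ∈ Fc L \ Fo L ↔ ∃ s ∈ sides L, x ∈ segment ℝ (cc s.1) (cc s.2) := by
  unfold convB at h
  rw [List.all_eq_true] at h
  constructor
  · rintro ⟨h1, h2⟩
    unfold Fo at h2
    simp only [Set.mem_ofPred_eq, not_forall] at h2
    obtain ⟨s, hs, h3⟩ := h2
    have h4 : ori (cc s.1) (cc s.2) x = 0 := le_antisymm (not_lt.1 h3) (h1 s hs)
    have h5 := h s hs
    simp only [Bool.and_eq_true, decide_eq_true_eq, List.any_eq_true] at h5
    obtain ⟨⟨⟨⟨⟨-, hne⟩, -⟩, -⟩, t, ht, ht1, ht2⟩, t', ht', ht1', ht2'⟩ := h5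
    have hne' : cc s.1 ≠ cc s.2 := fun e => hne (cc_inj e)
    obtain ⟨r, hr1, hr2⟩ := on_line hne' h4
    refine ⟨s, hs, mem_seg.2 ⟨r, ?_, ?_, hr1, hr2⟩⟩
    · have h6 := h1 t ht
      rw [ori_seg hr1 hr2, ht1, ori_cc, ori_cc] at h6
      have h7 : oi t.1 s.1 s.1 = 0 := by unfold oi; ring
      rw [h7] at h6
      rw [ht1] at ht2
      have h8 : (0 : ℝ) < (oi t.1 s.1 s.2 : ℝ) := by exact_mod_cast ht2
      simp only [Int.cast_zero, mul_zero, zero_add] at h6
      exact nonneg_of_mul_nonneg_left h6 h8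
    · have h6 := h1 t' ht'
      rw [ori_seg hr1 hr2, ht1', ori_cc, ori_cc] at h6
      have h7 : oi s.2 t'.2 s.2 = 0 := by unfold oi; ring
      rw [h7] at h6
      rw [ht1'] at ht2'
      have h8 : (0 : ℝ) < (oi s.2 t'.2 s.1 : ℝ) := by exact_mod_cast ht2'
      simp only [Int.cast_zero, mul_zero, add_zero] at h6
      have := nonneg_of_mul_nonneg_left h6 h8
      linarith
  · rintro ⟨s, hs, hx⟩
    have h5 := h s hs
    simp only [Bool.and_eq_true, decide_eq_true_eq, List.any_eq_true, List.all_eq_true] at h5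
    obtain ⟨⟨⟨⟨⟨-, hne⟩, hm1⟩, hm2⟩, -⟩, -⟩ := h5
    have hv : ∀ v ∈ L, cc v ∈ Fc L := by
      intro v hv t ht
      have h6 := h t ht
      simp only [Bool.and_eq_true, decide_eq_true_eq, List.any_eq_true, List.all_eq_true] at h6
      rw [ori_cc]
      exact_mod_cast h6.1.1.1.1.1 v hv
    refine ⟨(convex_Fc L).segment_subset (hv _ hm1) (hv _ hm2) hx, ?_⟩
    intro h7
    exact absurd (ori_zero_of_mem hx) (h7 s hs).ne'

/-- The open polygon misses the segment. -/
def disB (L : List IP) (p q : IP) : Bool :=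
  ((sides L).any fun s => decide (oi s.1 s.2 p ≤ 0) && decide (oi s.1 s.2 q ≤ 0)) ||
  ((sides L).any fun s => (sides L).any fun t => decide (0 < oi t.1 t.2 q) &&
    decide (oi s.1 s.2 q ≤ 0) &&
    decide (oi s.1 s.2 p * oi t.1 t.2 q - oi s.1 s.2 q * oi t.1 t.2 p ≤ 0))

theorem disB_spec {L : List IP} {p q : IP} (h : disB L p q = true) {x : Plane}
    (hx : x ∈ segment ℝ (cc p) (cc q)) (hF : x ∈ Fo L) : False := by
  unfold disB at h
  simp only [Bool.or_eq_true, Bool.and_eq_true, decide_eq_true_eq, List.any_eq_true] at h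
  obtain ⟨t, h0, h1, e1, e2⟩ := mem_seg.1 hx
  rcases h with ⟨s, hs, h2, h3⟩ | ⟨s, hs, s', hs', ⟨h2, h3⟩, h4⟩
  · have h5 := hF s hs
    rw [ori_seg e1 e2, ori_cc, ori_cc] at h5
    have h2' : (oi s.1 s.2 p : ℝ) ≤ 0 := by exact_mod_cast h2
    have h3' : (oi s.1 s.2 q : ℝ) ≤ 0 := by exact_mod_cast h3
    have := mul_nonneg (sub_nonneg.2 h1) (neg_nonneg.2 h2')
    have := mul_nonneg h0 (neg_nonneg.2 h3')
    linarith
  · have h5 := hF s hs
    have h6 := hF s' hs'
    rw [ori_seg e1 e2, ori_cc, ori_cc] at h5 h6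
    have h2' : (0 : ℝ) < (oi s'.1 s'.2 q : ℝ) := by exact_mod_cast h2
    have h3' : (oi s.1 s.2 q : ℝ) ≤ 0 := by exact_mod_cast h3
    have h4' : (oi s.1 s.2 p : ℝ) * (oi s'.1 s'.2 q : ℝ) -
        (oi s.1 s.2 q : ℝ) * (oi s'.1 s'.2 p : ℝ) ≤ 0 := by exact_mod_cast h4
    generalize (oi s.1 s.2 p : ℝ) = α at *
    generalize (oi s.1 s.2 q : ℝ) = β at *
    generalize (oi s'.1 s'.2 p : ℝ) = γ at *
    generalize (oi s'.1 s'.2 q : ℝ) = δ at *
    have a1 := mul_pos h5 h2'
    have a2 := mul_nonneg (neg_nonneg.2 h3') h6.le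
    have a3 := mul_nonneg (sub_nonneg.2 h1) (neg_nonneg.2 h4')
    nlinarith

/-- The diagonal `p q` is in the interior of the polygon. -/
def diaB (L : List IP) (p q : IP) : Bool :=
  (sides L).all fun s => decide (0 ≤ oi s.1 s.2 p) && decide (0 ≤ oi s.1 s.2 q) &&
    (decide (0 < oi s.1 s.2 p) || decide (0 < oi s.1 s.2 q))

theorem diaB_spec {L : List IP} {p q : IP} (h : diaB L p q = true) {x : Plane}
    (hx : x ∈ openSegment ℝ (cc p) (cc q)) : x ∈ Fo L := by
  unfold diaB at h
  rw [List.all_eq_true] at h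
  intro s hs
  have h1 := h s hs
  simp only [Bool.or_eq_true, Bool.and_eq_true, decide_eq_true_eq] at h1
  obtain ⟨a, b, ha, hb, hab, rfl⟩ := hx
  rw [ori_comb _ _ _ _ _ _ hab, ori_cc, ori_cc]
  obtain ⟨⟨h2, h3⟩, h4⟩ := h1
  have h2' : (0 : ℝ) ≤ (oi s.1 s.2 p : ℝ) := by exact_mod_cast h2
  have h3' : (0 : ℝ) ≤ (oi s.1 s.2 q : ℝ) := by exact_mod_cast h3
  rcases h4 with h4 | h4
  · have h4' : (0 : ℝ) < (oi s.1 s.2 p : ℝ) := by exact_mod_cast h4
    have := mul_pos ha h4'
    have := mul_nonneg hb.le h3'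
    linarith
  · have h4' : (0 : ℝ) < (oi s.1 s.2 q : ℝ) := by exact_mod_cast h4
    have := mul_pos hb h4'
    have := mul_nonneg ha.le h2'
    linarith

/-- A connected open set with frontier in `S`, disjoint from `S`, is a component of the
complement of `S`. -/
theorem comp_eq {S F : Set Plane} (hF : IsOpen F) (hc : IsPreconnected F) (hd : F ⊆ Sᶜ)
    (hfr : frontier F ⊆ S) {x : Plane} (hx : x ∈ F) : connectedComponentIn Sᶜ x = F := by
  apply Set.Subset.antisymm
  · apply IsPreconnected.subset_of_closure_inter_subset isPreconnected_connectedComponentIn hF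
    · exact ⟨x, mem_connectedComponentIn (hd hx), hx⟩
    · rintro y ⟨hy1, hy2⟩
      by_contra h
      have h1 : y ∈ frontier F := by
        rw [hF.frontier_eq]
        exact ⟨hy1, h⟩
      exact connectedComponentIn_subset _ _ hy2 (hfr h1)
  · exact hc.subset_connectedComponentIn hx hd

end Pool.Agent.X64.NO1
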